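import Pool.Agent.Helper96.MP.Defs

/-!
MP_bde085_nt, module FAREY: a function on `P¹(ℤ/N)` which satisfies the Manin relations has a
potential on the cusps.
-/

set_option autoImplicit false

namespace Pool.Agent.Helper96.MP

theorem farey_uni {N : ℕ} {c d : ℤ} (h : IsCoprime c d) : Uni N c d := by
  unfold Uni
  rw [Int.isCoprime_iff_gcd_eq_one] at h
  rw [h]
  simp

theorem farey_ev_eqv {N : ℕ} {V : Type} [Zero V] (v : PN N → V) {c d c' d' : ℤ}
    (h : Uni N c d) (h' : Uni N c' d') (he : eqv N c d c' d') : ev v c d = ev v c' d' := by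
  unfold ev
  rw [dif_pos h, dif_pos h']
  exact congrArg v (Quotient.sound he)

/-- inverse of `p` modulo `q + 1` -/
def farey_inv (p : ℤ) (q : ℕ) : ℕ := (Int.gcdA p ((q : ℤ) + 1) % ((q : ℤ) + 1)).toNat

theorem farey_inv_lt (p : ℤ) (q : ℕ) : farey_inv p q < q + 1 := by
  have h := Int.emod_lt_of_pos (Int.gcdA p ((q : ℤ) + 1)) (show (0 : ℤ) < (q : ℤ) + 1 by omega)
  unfold farey_inv
  omega

theorem farey_inv_eq (p x : ℤ) (q y : ℕ) (hy : y < q + 1) (h : p * y - x * ((q : ℤ) + 1) = 1) :
    farey_inv p q = y ∧ (p * (farey_inv p q : ℤ) - 1) / ((q : ℤ) + 1) = x := by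
  have hc : IsCoprime p ((q : ℤ) + 1) := ⟨y, -x, by linarith⟩
  rw [Int.isCoprime_iff_gcd_eq_one] at hc
  have hg := Int.gcd_eq_gcd_ab p ((q : ℤ) + 1)
  rw [hc] at hg
  push_cast at hg
  set A := Int.gcdA p ((q : ℤ) + 1) with hA
  set B := Int.gcdB p ((q : ℤ) + 1) with hB
  have h1 : A - y = ((q : ℤ) + 1) * (-(x * A + y * B)) := by
    linear_combination (-(y : ℤ)) * hg - A * h
  have h2 : A % ((q : ℤ) + 1) = y := by
    have h3 : A = y + ((q : ℤ) + 1) * (-(x * A + y * B)) := by linarith
    rw [h3, Int.add_mul_emod_self_left]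
    exact Int.emod_eq_of_lt (by omega) (by omega)
  have h4 : farey_inv p q = y := by
    unfold farey_inv
    rw [← hA, h2]
    simp
  refine ⟨h4, ?_⟩
  rw [h4]
  have h5 : p * (y : ℤ) - 1 = x * ((q : ℤ) + 1) := by linarith
  rw [h5]
  exact Int.mul_ediv_cancel _ (by omega)

/-- the potential on fractions with nonnegative denominator -/
noncomputable def farey_c (f : ℤ → ℤ → ℝ) : ℕ → ℤ → ℝ
  | 0, _ => 0
  | q + 1, p => farey_c f (farey_inv p q) ((p * (farey_inv p q : ℤ) - 1) / ((q : ℤ) + 1)) +
      f ((q : ℤ) + 1) (farey_inv p q)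
termination_by q => q
decreasing_by exact farey_inv_lt p q

theorem farey_c_zero (f : ℤ → ℤ → ℝ) (p : ℤ) : farey_c f 0 p = 0 := by
  rw [farey_c]

theorem farey_step (f : ℤ → ℤ → ℝ) (p x : ℤ) (q y : ℕ) (hy : y < q)
    (h : p * y - x * (q : ℤ) = 1) : farey_c f q p - farey_c f y x = f q y := by
  obtain ⟨q, rfl⟩ : ∃ k, q = k + 1 := ⟨q - 1, by omega⟩
  have h' : p * y - x * ((q : ℤ) + 1) = 1 := by
    push_cast at h
    exact h
  obtain ⟨h1, h2⟩ := farey_inv_eq p x q y hy h'
  rw [farey_c, h2, h1]
  push_cast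
  ring

theorem farey_A (f : ℤ → ℤ → ℝ) (h2 : ∀ c d : ℤ, IsCoprime c d → f c d + f d (-c) = 0)
    (h3 : ∀ c d : ℤ, IsCoprime c d → f c d + f (c + d) (-c) + f d (-c - d) = 0)
    (hn : ∀ c d : ℤ, IsCoprime c d → f (-c) (-d) = f c d) :
    ∀ (n q y : ℕ) (p x : ℤ), q + y ≤ n → p * y - x * q = 1 →
      farey_c f q p - farey_c f y x = f q y := by
  intro n
  induction n with
  | zero =>
    intro q y p x hn h
    have h1 : q = 0 := by omega
    have h2 : y = 0 := by omega
    subst h1 h2
    simp at h
  | succ n ih =>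
    intro q y p x hn' h
    rcases lt_trichotomy y q with hlt | heq | hgt
    · exact farey_step f p x q y hlt h
    · subst heq
      have h1 : (p - x) * (y : ℤ) = 1 := by linarith
      have h4 : (y : ℤ) = 1 := by
        have hy : (y : ℤ) ∣ 1 := ⟨p - x, by linarith⟩
        exact Int.eq_one_of_dvd_one (by omega) hy
      have h5 : y = 1 := by exact_mod_cast h4
      subst h5
      have h6 := farey_step f p (-1) 1 0 (by norm_num) (by norm_num)
      have h7 := farey_step f x (-1) 1 0 (by norm_num) (by norm_num)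
      rw [farey_c_zero] at h6 h7
      have e1 := h3 1 0 isCoprime_one_left
      have e2 := h2 1 0 isCoprime_one_left
      have e3 := h2 1 1 isCoprime_one_left
      norm_num at e1 e2 e3 h6 h7 ⊢
      linarith
    · by_cases hq : q = 0
      · subst hq
        have h1 : p * (y : ℤ) = 1 := by
          push_cast at h
          linarith
        have h4 : (y : ℤ) = 1 := Int.eq_one_of_dvd_one (by omega) ⟨p, by linarith⟩
        have h5 : y = 1 := by exact_mod_cast h4
        subst h5
        have h7 := farey_step f x (-1) 1 0 (by norm_num) (by norm_num)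
        rw [farey_c_zero] at h7 ⊢
        have e2 := h2 0 1 isCoprime_one_right
        norm_num at e2 h7 ⊢
        linarith
      · obtain ⟨z, rfl⟩ : ∃ z, y = q + z := ⟨y - q, by omega⟩
        have hz : 0 < z := by omega
        have h1 := farey_step f x (x - p) (q + z) z (by omega) (by
          push_cast at h ⊢
          linarith)
        have h4 := ih q z p (x - p) (by omega) (by
          push_cast at h ⊢
          linarith)
        have hc : IsCoprime (q : ℤ) (z : ℤ) := by
          refine ⟨-(x - p), p, ?_⟩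
          push_cast at h
          linarith
        have e3 := h3 q z hc
        have hc1 : IsCoprime ((q : ℤ) + z) (-(q : ℤ)) := by
          have := (IsCoprime.add_mul_left_left hc.symm 1)
          rw [mul_one, add_comm] at this
          exact this.neg_right
        have e4 := h2 _ _ hc1
        have hc2 : IsCoprime (z : ℤ) (-(q : ℤ) - z) := by
          have h5 := (IsCoprime.add_mul_left_right hc.symm 1)
          rw [mul_one] at h5
          have h6 := h5.neg_right
          rwa [show -((q : ℤ) + z) = -(q : ℤ) - z by ring] at h6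
        have e5 := h2 _ _ hc2
        have e6 := hn (q : ℤ) ((q : ℤ) + z) (by
          have := hc1.neg_right.symm
          rwa [neg_neg] at this)
        have e7 := hn ((q : ℤ) + z) (z : ℤ) (by
          have := hc2.neg_right.symm
          rwa [show -(-(q : ℤ) - z) = (q : ℤ) + z by ring] at this)
        rw [show -((q : ℤ) + z) = -(q : ℤ) - z by ring] at e4 e6 e7
        push_cast at h1 h4 ⊢
        linarith

/-- the potential -/
noncomputable def farey_C (f : ℤ → ℤ → ℝ) (p q : ℤ) : ℝ :=
  if q = 0 then 0 else farey_c f ((p : ℚ) / (q : ℚ)).den ((p : ℚ) / (q : ℚ)).num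

theorem farey_C_hom (f : ℤ → ℤ → ℝ) (k p q : ℤ) (hk : k ≠ 0) :
    farey_C f (k * p) (k * q) = farey_C f p q := by
  unfold farey_C
  by_cases hq : q = 0
  · simp [hq]
  · have hkq : k * q ≠ 0 := mul_ne_zero hk hq
    rw [if_neg hq, if_neg hkq]
    have h : ((k * p : ℤ) : ℚ) / ((k * q : ℤ) : ℚ) = (p : ℚ) / (q : ℚ) := by
      push_cast
      have : (k : ℚ) ≠ 0 := by exact_mod_cast hk
      rw [mul_div_mul_left _ _ this]
    rw [h]

theorem farey_C_nat (f : ℤ → ℤ → ℝ) (p : ℤ) (q : ℕ) (h : IsCoprime p (q : ℤ)) :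
    farey_C f p q = farey_c f q p := by
  unfold farey_C
  by_cases hq : q = 0
  · subst hq
    simp [farey_c_zero]
  · rw [if_neg (by exact_mod_cast hq)]
    have hpos : (0 : ℤ) < (q : ℤ) := by omega
    have hc : Nat.Coprime p.natAbs ((q : ℤ)).natAbs := by
      rw [Int.isCoprime_iff_gcd_eq_one] at h
      exact h
    have h1 := Rat.num_div_eq_of_coprime hpos hc
    have h2 := Rat.den_div_eq_of_coprime hpos hc
    rw [h1]
    congr 1
    exact_mod_cast h2

theorem farey_edge (f : ℤ → ℤ → ℝ) (h2 : ∀ c d : ℤ, IsCoprime c d → f c d + f d (-c) = 0)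
    (h3 : ∀ c d : ℤ, IsCoprime c d → f c d + f (c + d) (-c) + f d (-c - d) = 0)
    (hn : ∀ c d : ℤ, IsCoprime c d → f (-c) (-d) = f c d) (p x q y : ℤ)
    (h : p * y - x * q = 1) : f q y = farey_C f p q - farey_C f x y := by
  have main : ∀ (q : ℕ) (p x y : ℤ), p * y - x * q = 1 →
      f q y = farey_C f p q - farey_C f x y := by
    intro q p x y h
    have hpq : IsCoprime p (q : ℤ) := ⟨y, -x, by linarith⟩
    rcases Int.eq_nat_or_neg y with ⟨m, rfl | rfl⟩
    · have hxm : IsCoprime x (m : ℤ) := ⟨-q, p, by linarith⟩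
      rw [farey_C_nat f p q hpq, farey_C_nat f x m hxm]
      exact (farey_A f h2 h3 hn (q + m) q m p x le_rfl h).symm
    · have hxm : IsCoprime (-x) (m : ℤ) := ⟨q, -p, by linarith⟩
      have e1 : farey_C f x (-(m : ℤ)) = farey_C f (-x) m := by
        have := farey_C_hom f (-1) (-x) m (by norm_num)
        rw [neg_one_mul, neg_one_mul, neg_neg] at this
        exact this
      rw [e1, farey_C_nat f p q hpq, farey_C_nat f (-x) m hxm]
      have e2 := farey_A f h2 h3 hn (m + q) m q (-x) p le_rfl (by linarith)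
      have e3 := h2 (m : ℤ) (q : ℤ) ⟨-p, -x, by linarith⟩
      linarith
  rcases Int.eq_nat_or_neg q with ⟨m, rfl | rfl⟩
  · exact main m p x y h
  · have h1 := main m (-p) (-x) (-y) (by linarith)
    have e1 : farey_C f p (-(m : ℤ)) = farey_C f (-p) m := by
      have := farey_C_hom f (-1) (-p) m (by norm_num)
      rw [neg_one_mul, neg_one_mul, neg_neg] at this
      exact this
    have e2 : farey_C f (-x) (-y) = farey_C f x y := by
      have := farey_C_hom f (-1) x y (by norm_num)
      rw [neg_one_mul, neg_one_mul] at this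
      exact this
    have e3 := hn (m : ℤ) (-y) (⟨x, -p, by linarith⟩)
    rw [neg_neg] at e3
    rw [e1, e3, h1, e2]

theorem st_FAREY (hconn : ST_CONN) : ST_FAREY := by
  intro N hN v h2 h3
  have hneg : ∀ c d : ℤ, IsCoprime c d → ev v (-c) (-d) = ev v c d := by
    intro c d h
    refine farey_ev_eqv v (farey_uni h.neg_left.neg_right) (farey_uni h) ⟨-1, ?_, ?_, ?_⟩
    · exact isCoprime_one_left.neg_left
    · simp
    · simp
  have hedge := farey_edge (fun c d => ev v c d) (fun c d h => h2 c d (farey_uni h))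
    (fun c d h => h3 c d (farey_uni h)) hneg
  set C : ℤ → ℤ → ℝ := farey_C (fun c d => ev v c d) with hC
  have hhom : Hom0 C := fun k p q hk => farey_C_hom _ k p q hk
  refine ⟨C, hhom, ?_, hedge⟩
  intro a b c d hG x y hxy
  obtain ⟨hdet, k, hk⟩ := hG
  have h := hconn ℝ ⊥ (fun x y => C (a * x + b * y) (c * x + d * y) - C x y) (by
    intro k p q hk
    have e1 := hhom k (a * p + b * q) (c * p + d * q) hk
    have e2 := hhom k p q hk
    beta_reduce
    rw [show a * (k * p) + b * (k * q) = k * (a * p + b * q) by ring,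
      show c * (k * p) + d * (k * q) = k * (c * p + d * q) by ring, e1, e2]) (by
    intro p x q y hpy
    rw [AddSubgroup.mem_bot]
    have e1 := hedge p x q y hpy
    have e2 := hedge (a * p + b * q) (a * x + b * y) (c * p + d * q) (c * x + d * y) (by
      have : (a * p + b * q) * (c * x + d * y) - (a * x + b * y) * (c * p + d * q) =
        (a * d - b * c) * (p * y - x * q) := by ring
      rw [this, hdet, hpy]
      norm_num)
    have e3 : ev v (c * p + d * q) (c * x + d * y) = ev v q y := by
      refine (farey_ev_eqv v (farey_uni ⟨-x, p, by linarith⟩) (farey_uni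
        ⟨-(a * x + b * y), a * p + b * q, ?_⟩) ⟨d, ⟨a, -b * k, ?_⟩, ⟨k * p, ?_⟩, ⟨k * x, ?_⟩⟩).symm
      · have : (a * p + b * q) * (c * x + d * y) - (a * x + b * y) * (c * p + d * q) =
          (a * d - b * c) * (p * y - x * q) := by ring
        rw [hdet, hpy] at this
        linarith
      · rw [hk] at hdet
        linarith
      · rw [hk]
        ring
      · rw [hk]
        ring
    linarith) x y hxy
  rw [AddSubgroup.mem_bot] at h
  rw [show a * 1 + b * 0 = a by ring, show c * 1 + d * 0 = c by ring] at h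
  linarith

end Pool.Agent.Helper96.MP
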