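import Pool.Agent.Helper45.MP.CBD

/-!
# Module LA2: integer solutions of linear systems given in blocks, inside a lattice
-/

set_option autoImplicit false

namespace Pool.Agent.Helper96.MP

open Finset

/-- the linear combination map of a basis of integral functions -/
noncomputable def laPhi {P ι : Type} [Fintype ι] (b : ι → P → ℤ) : (ι → ℝ) →ₗ[ℝ] (P → ℝ) where
  toFun c := fun x => ∑ i, c i * (b i x : ℝ)
  map_add' c c' := by
    ext x
    simp only [Pi.add_apply, add_mul, sum_add_distrib]
  map_smul' a c := by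
    ext x
    simp only [Pi.smul_apply, smul_eq_mul, RingHom.id_apply, mul_assoc, ← mul_sum]

/-- coordinates of a row with respect to the basis, integral version -/
def laM {P ι : Type} [Fintype P] (b : ι → P → ℤ) (w : P → ℤ) : ι → ℤ := fun i => ∑ x, w x * b i x

/-- coordinates of a row with respect to the basis, real version -/
def laMr {P ι : Type} [Fintype P] (b : ι → P → ℤ) (w : P → ℤ) : ι → ℝ := fun i => (laM b w i : ℝ)

theorem laPhi_pair {P ι : Type} [Fintype P] [Fintype ι] (b : ι → P → ℤ) (w : P → ℤ) (c : ι → ℝ) :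
    ∑ x, (w x : ℝ) * laPhi b c x = ∑ i, laMr b w i * c i := by
  unfold laMr laM laPhi
  simp only [LinearMap.coe_mk, AddHom.coe_mk, mul_sum]
  rw [sum_comm]
  refine sum_congr rfl (fun i _ => ?_)
  push_cast
  rw [sum_mul]
  refine sum_congr rfl (fun x _ => ?_)
  ring

theorem laPhi_inj {P ι : Type} [Fintype ι] (b : ι → P → ℤ)
    (hb : LinearIndependent ℝ (fun (i : ι) (x : P) => (b i x : ℝ))) :
    Function.Injective (laPhi b) := by
  rw [← LinearMap.ker_eq_bot, LinearMap.ker_eq_bot']
  intro c hc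
  rw [Fintype.linearIndependent_iff] at hb
  ext i
  refine hb c ?_ i
  ext x
  have := congrFun hc x
  simpa [laPhi] using this

theorem laPhi_range {P ι : Type} [Fintype ι] (b : ι → P → ℤ) :
    LinearMap.range (laPhi b) = Submodule.span ℝ (Set.range (fun (i : ι) (x : P) => (b i x : ℝ))) := by
  ext v
  rw [LinearMap.mem_range, Submodule.mem_span_range_iff_exists_fun]
  constructor
  · rintro ⟨c, rfl⟩
    refine ⟨c, ?_⟩
    ext x
    simp [laPhi]
  · rintro ⟨c, rfl⟩
    refine ⟨c, ?_⟩
    ext x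
    simp [laPhi]

/-- dimension count in coordinates -/
theorem la2_card {P ι : Type} [Fintype P] [Fintype ι] (b : ι → P → ℤ)
    (hb : LinearIndependent ℝ (fun (i : ι) (x : P) => (b i x : ℝ)))
    (t : Finset (P → ℤ)) (ht : LinearIndepOn ℝ (laMr b) (t : Set (P → ℤ)))
    (E : Submodule ℝ (P → ℝ))
    (hE : ∀ v, v ∈ E ↔ v ∈ LinearMap.range (laPhi b) ∧ ∀ w ∈ t, ∑ x, (w x : ℝ) * v x = 0) :
    t.card + Module.finrank ℝ E = Fintype.card ι := by
  classical
  let M : Matrix t ι ℝ := fun w i => laMr b w.1 i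
  have hrow : LinearIndependent ℝ M.row := ht
  have hrank : M.rank = t.card := by
    rw [hrow.rank_matrix, Fintype.card_coe]
  have hker : E = (LinearMap.ker M.mulVecLin).map (laPhi b) := by
    ext v
    rw [hE, Submodule.mem_map]
    constructor
    · rintro ⟨⟨c, rfl⟩, h⟩
      refine ⟨c, ?_, rfl⟩
      rw [LinearMap.mem_ker, Matrix.mulVecLin_apply]
      ext w
      have := h w.1 w.2
      rw [laPhi_pair] at this
      exact this
    · rintro ⟨c, hc, rfl⟩
      refine ⟨⟨c, rfl⟩, fun w hw => ?_⟩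
      rw [LinearMap.mem_ker, Matrix.mulVecLin_apply] at hc
      rw [laPhi_pair]
      exact congrFun hc ⟨w, hw⟩
  have h := LinearMap.finrank_range_add_finrank_ker M.mulVecLin
  rw [Module.finrank_fintype_fun_eq_card] at h
  have h2 : Module.finrank ℝ E = Module.finrank ℝ (LinearMap.ker M.mulVecLin) := by
    rw [hker]
    exact (Submodule.equivMapOfInjective (laPhi b) (laPhi_inj b hb)
      (LinearMap.ker M.mulVecLin)).finrank_eq.symm
  rw [h2, ← hrank]
  exact h

theorem la2_char {P ι : Type} [Fintype P] [Fintype ι] (b : ι → P → ℤ)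
    (V : Submodule ℝ (P → ℝ)) (hV : LinearMap.range (laPhi b) = V)
    (Rw : ℕ → Set (P → ℤ)) (E : ℕ → Submodule ℝ (P → ℝ))
    (hE : ∀ j, ∀ v, v ∈ E j ↔ v ∈ V ∧ ∀ i, i < j → ∀ w ∈ Rw i, ∑ x, (w x : ℝ) * v x = 0)
    (j : ℕ) (t : Finset (P → ℤ)) (h1 : ∀ w ∈ t, ∃ i, i < j ∧ w ∈ Rw i)
    (h2 : ∀ i, i < j → ∀ w ∈ Rw i, laMr b w ∈ Submodule.span ℝ (laMr b '' (t : Set (P → ℤ)))) :
    ∀ v, v ∈ E j ↔ v ∈ LinearMap.range (laPhi b) ∧ ∀ w ∈ t, ∑ x, (w x : ℝ) * v x = 0 := by
  intro v
  rw [hE, hV]
  refine and_congr_right (fun hv => ?_)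
  constructor
  · intro h w hw
    obtain ⟨i, hi, hwi⟩ := h1 w hw
    exact h i hi w hwi
  · intro h i hi w hw
    rw [← hV] at hv
    obtain ⟨c, rfl⟩ := hv
    rw [laPhi_pair]
    have key : ∀ u ∈ Submodule.span ℝ (laMr b '' (t : Set (P → ℤ))), ∑ i, u i * c i = 0 := by
      intro u hu
      induction hu using Submodule.span_induction with
      | mem u hu =>
        obtain ⟨w', hw', rfl⟩ := hu
        rw [← laPhi_pair]
        exact h w' hw'
      | zero => simp
      | add w w' _ _ h1 h2 =>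
        simp only [Pi.add_apply, add_mul, sum_add_distrib, h1, h2, add_zero]
      | smul c w _ h1 =>
        simp only [Pi.smul_apply, smul_eq_mul, mul_assoc, ← mul_sum, h1, mul_zero]
    exact key _ (h2 i hi w hw)

/-- greedy choice of independent rows -/
theorem la2_greedy {P ι : Type} [Fintype P] [Fintype ι] (b : ι → P → ℤ)
    (hb : LinearIndependent ℝ (fun (i : ι) (x : P) => (b i x : ℝ)))
    (V : Submodule ℝ (P → ℝ)) (hV : LinearMap.range (laPhi b) = V)
    (Rw : ℕ → Set (P → ℤ)) (B : ℕ → ℝ) (E : ℕ → Submodule ℝ (P → ℝ))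
    (hL : ∀ j, ∀ w ∈ Rw j, ∑ x, |(w x : ℝ)| ≤ B j)
    (hE : ∀ j, ∀ v, v ∈ E j ↔ v ∈ V ∧ ∀ i, i < j → ∀ w ∈ Rw i, ∑ x, (w x : ℝ) * v x = 0)
    (j : ℕ) :
    ∃ t : Finset (P → ℤ), LinearIndepOn ℝ (laMr b) (t : Set (P → ℤ)) ∧
      (∀ w ∈ t, ∃ i, i < j ∧ w ∈ Rw i) ∧
      (∀ i, i < j → ∀ w ∈ Rw i, laMr b w ∈ Submodule.span ℝ (laMr b '' (t : Set (P → ℤ)))) ∧
      ∏ w ∈ t, ∑ x, |(w x : ℝ)| ≤ ∏ k ∈ range j,
        (B k) ^ (Module.finrank ℝ (E k) - Module.finrank ℝ (E (k + 1))) := by
  classical
  induction j with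
  | zero =>
    refine ⟨∅, ?_, ?_, ?_, ?_⟩
    · simp
    · intro w hw
      exact absurd hw (notMem_empty w)
    · intro i hi
      exact absurd hi (Nat.not_lt_zero i)
    · simp
  | succ j ih =>
    obtain ⟨t, ht, ht1, ht2, ht3⟩ := ih
    obtain ⟨t', htt', hsub, hspan, hind⟩ := exists_linearIndepOn_extension ht
      (Set.subset_union_left : (t : Set (P → ℤ)) ⊆ (t : Set (P → ℤ)) ∪ Rw j)
    have hfin : t'.Finite := Set.finite_coe_iff.1 hind.linearIndependent.finite
    lift t' to Finset (P → ℤ) using hfin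
    have hbb : t ⊆ t' := by exact_mod_cast hsub
    have g1 : ∀ w ∈ t', ∃ i, i < j + 1 ∧ w ∈ Rw i := by
      intro w hw
      rcases htt' hw with h | h
      · obtain ⟨i, hi, hwi⟩ := ht1 w h
        exact ⟨i, by omega, hwi⟩
      · exact ⟨j, by omega, h⟩
    have g2 : ∀ i, i < j + 1 → ∀ w ∈ Rw i,
        laMr b w ∈ Submodule.span ℝ (laMr b '' (t' : Set (P → ℤ))) := by
      intro i hi w hw
      rcases Nat.lt_succ_iff_lt_or_eq.1 hi with h | h
      · exact Submodule.span_mono (Set.image_mono hsub) (ht2 i h w hw)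
      · subst h
        exact hspan ⟨w, Or.inr hw, rfl⟩
    refine ⟨t', hind, g1, g2, ?_⟩
    have c1 := la2_card b hb t ht (E j) (la2_char b V hV Rw E hE j t ht1 ht2)
    have c2 := la2_card b hb t' hind (E (j + 1)) (la2_char b V hV Rw E hE (j + 1) t' g1 g2)
    have c3 : (t' \ t).card = Module.finrank ℝ (E j) - Module.finrank ℝ (E (j + 1)) := by
      rw [card_sdiff_of_subset hbb]
      omega
    have c4 : ∏ w ∈ t' \ t, ∑ x, |(w x : ℝ)| ≤ (B j) ^ (t' \ t).card := by
      rw [← prod_const]
      refine prod_le_prod (fun w _ => sum_nonneg fun x _ => abs_nonneg _) (fun w hw => ?_)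
      rw [mem_sdiff] at hw
      rcases htt' hw.1 with h | h
      · exact absurd h hw.2
      · exact hL j w h
    rw [prod_range_succ, ← c3, ← prod_sdiff hbb, mul_comm]
    refine mul_le_mul ht3 c4 (prod_nonneg fun w _ => sum_nonneg fun x _ => abs_nonneg _) ?_
    exact (prod_nonneg fun w _ => sum_nonneg fun x _ => abs_nonneg _).trans ht3

theorem st_LA2 : ST_LA2 := by
  classical
  intro P _ V r D hLB J Rw B E _hB hL hE hdim
  obtain ⟨ι, _, _, b, _hr, hb, hspanV, hgram⟩ := hLB
  have hV : LinearMap.range (laPhi b) = V := by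
    rw [laPhi_range, hspanV]
  obtain ⟨t, ht, ht1, ht2, ht3⟩ := la2_greedy b hb V hV Rw B E hL hE J
  have hchar := la2_char b V hV Rw E hE J t ht1 ht2
  have hcard := la2_card b hb t ht (E J) hchar
  rw [hdim] at hcard
  have hcard' : Fintype.card (Option t) = Fintype.card ι := by
    rw [Fintype.card_option, Fintype.card_coe]
    omega
  let e : Option t ≃ ι := Fintype.equivOfCardEq hcard'
  let i0 : ι := e none
  let W : ι → P → ℤ := fun p => match e.symm p with
    | none => 0
    | some a => a.1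
  have hW : ∀ a : t, W (e (some a)) = a.1 := by
    intro a
    simp only [W, Equiv.symm_apply_apply]
  let M0 : Matrix ι ι ℤ := fun p => laM b (W p)
  let cof : ι → ℤ := fun i => (M0.updateRow i0 (Pi.single i 1)).det
  have hdet : ∀ w : ι → ℤ, (M0.updateRow i0 w).det = ∑ i, w i * cof i := by
    intro w
    rw [Matrix.det_eq_sum_mul_adjugate_row _ i0]
    refine sum_congr rfl (fun x _ => ?_)
    rw [Matrix.updateRow_self, Matrix.adjugate_apply, Matrix.updateRow_idem]
  let v : P → ℤ := fun x => (M0.updateRow i0 (fun i => b i x)).det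
  have hvphi : (fun x => (v x : ℝ)) = laPhi b (fun i => (cof i : ℝ)) := by
    ext x
    simp only [v, laPhi, LinearMap.coe_mk, AddHom.coe_mk]
    rw [hdet]
    push_cast
    refine sum_congr rfl (fun i _ => ?_)
    ring
  have hne0 : ∀ a : t, e (some a) ≠ i0 := by
    intro a h
    exact Option.some_ne_none _ (e.injective h)
  have hvE : (fun x => (v x : ℝ)) ∈ E J := by
    rw [hchar]
    refine ⟨⟨_, hvphi.symm⟩, fun w hw => ?_⟩
    have h5 := laPhi_pair b w (fun i => (cof i : ℝ))
    rw [← hvphi] at h5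
    refine h5.trans ?_
    have h0 : (M0.updateRow i0 (laM b w)).det = 0 := by
      refine Matrix.det_zero_of_row_eq (hne0 ⟨w, hw⟩).symm ?_
      rw [Matrix.updateRow_self, Matrix.updateRow_ne (hne0 ⟨w, hw⟩)]
      show laM b w = laM b (W (e (some ⟨w, hw⟩)))
      rw [hW]
    rw [hdet] at h0
    have h1 : ((∑ i, laM b w i * cof i : ℤ) : ℝ) = 0 := by
      rw [h0]
      simp
    push_cast at h1
    exact h1
  -- real version of the determinant formula
  have hmap : ∀ w : ι → ℤ, (M0.updateRow i0 w).map (fun z : ℤ => (z : ℝ))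
      = (M0.map (fun z : ℤ => (z : ℝ))).updateRow i0 (fun x => (w x : ℝ)) := by
    intro w
    ext p q
    by_cases hp : p = i0
    · subst hp
      simp
    · simp [Matrix.updateRow_ne hp]
  have hdetR : ∀ w : ι → ℝ, ((M0.map (fun z : ℤ => (z : ℝ))).updateRow i0 w).det
      = ∑ x, w x * (cof x : ℝ) := by
    intro w
    rw [Matrix.det_eq_sum_mul_adjugate_row _ i0]
    refine sum_congr rfl (fun x _ => ?_)
    rw [Matrix.updateRow_self, Matrix.adjugate_apply, Matrix.updateRow_idem]
    congr 1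
    have h1 : (Pi.single x 1 : ι → ℝ) = fun y => (((Pi.single x 1 : ι → ℤ) y : ℤ) : ℝ) := by
      ext y
      by_cases hy : y = x
      · subst hy
        simp
      · simp [hy]
    rw [h1, ← hmap]
    exact (Int.cast_det _).symm
  have hrowA : ∀ a : t, (M0.map (fun z : ℤ => (z : ℝ))) (e (some a)) = laMr b a.1 := by
    intro a
    ext x
    show ((laM b (W (e (some a))) x : ℤ) : ℝ) = laMr b a.1 x
    rw [hW]
    rfl
  have hcof : cof ≠ 0 := by
    intro hv
    have hspan : Submodule.span ℝ (laMr b '' (t : Set (P → ℤ))) ≠ ⊤ := by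
      intro htop
      have hle : Module.finrank ℝ (Submodule.span ℝ (laMr b '' (t : Set (P → ℤ)))) ≤ t.card := by
        have h1 := finrank_span_le_card (R := ℝ) (laMr b '' (t : Set (P → ℤ)))
        refine h1.trans ?_
        rw [Set.toFinset_image, Finset.toFinset_coe]
        exact card_image_le
      rw [htop, finrank_top, Module.finrank_fintype_fun_eq_card] at hle
      omega
    obtain ⟨w, hw⟩ : ∃ w, w ∉ Submodule.span ℝ (laMr b '' (t : Set (P → ℤ))) := by
      by_contra hcon
      push Not at hcon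
      exact hspan (Submodule.eq_top_iff'.2 hcon)
    have hli : LinearIndependent ℝ
        (((M0.map (fun z : ℤ => (z : ℝ))).updateRow i0 w).row ∘ e) := by
      rw [linearIndependent_option]
      have hcomp : ((((M0.map (fun z : ℤ => (z : ℝ))).updateRow i0 w).row ∘ e) ∘
          ((↑) : t → Option t)) = fun a : t => laMr b a.1 := by
        funext a
        show ((M0.map (fun z : ℤ => (z : ℝ))).updateRow i0 w) (e (some a)) = laMr b a.1
        rw [Matrix.updateRow_ne (hne0 a)]
        exact hrowA a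
      rw [hcomp]
      refine ⟨ht, ?_⟩
      show ((M0.map (fun z : ℤ => (z : ℝ))).updateRow i0 w) i0 ∉ _
      rw [Matrix.updateRow_self]
      have hr : Set.range (fun a : t => laMr b a.1) = laMr b '' (t : Set (P → ℤ)) := by
        ext u
        simp only [Set.mem_range, Set.mem_image, SetLike.mem_coe, Subtype.exists, exists_prop]
      rw [hr]
      exact hw
    rw [linearIndependent_equiv, Matrix.linearIndependent_rows_iff_isUnit,
      Matrix.isUnit_iff_isUnit_det, isUnit_iff_ne_zero] at hli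
    apply hli
    rw [hdetR]
    simp [hv]
  have hvne : v ≠ 0 := by
    intro hv
    apply hcof
    have h1 : laPhi b (fun i => (cof i : ℝ)) = 0 := by
      rw [← hvphi, hv]
      ext x
      simp
    have h2 := laPhi_inj b hb (h1.trans (map_zero (laPhi b)).symm)
    ext i
    have := congrFun h2 i
    simpa using this
  refine ⟨v, hvne, hvE, fun x => ?_⟩
  -- the bound
  let X : ι → P → ℝ := fun p => if p = i0 then Pi.single x 1 else fun y => (W p y : ℝ)
  have hXdet : (v x : ℝ) = (Matrix.of (fun i j : ι => ∑ y, X i y * (b j y : ℝ))).det := by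
    show (((M0.updateRow i0 (fun i => b i x)).det : ℤ) : ℝ) = _
    have h1 : (((M0.updateRow i0 (fun i => b i x)).det : ℤ) : ℝ)
        = ((M0.updateRow i0 (fun i => b i x)).map (fun z : ℤ => (z : ℝ))).det := by
      exact Int.cast_det _
    rw [h1, hmap]
    congr 1
    ext p q
    rw [Matrix.of_apply]
    by_cases hp : p = i0
    · subst hp
      rw [Matrix.updateRow_self]
      simp only [X, if_true]
      rw [sum_eq_single x]
      · simp
      · intro y _ hy
        simp [hy]
      · intro h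
        exact absurd (mem_univ x) h
    · rw [Matrix.updateRow_ne hp]
      simp only [X, if_neg hp]
      show ((laM b (W p) q : ℤ) : ℝ) = _
      unfold laM
      push_cast
      rfl
  have hC := (st_CBD ι P X (fun i y => (b i y : ℝ))).2
  rw [← hXdet] at hC
  refine hC.trans ?_
  have hprod : ∏ i, ∑ y, |X i y| = ∏ w ∈ t, ∑ y, |(w y : ℝ)| := by
    rw [← e.prod_comp, Fintype.prod_option]
    have h3 : ∑ j, |X (e none) j| = 1 := by
      show ∑ j, |X i0 j| = 1
      simp only [X, if_true]
      rw [sum_eq_single x]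
      · simp
      · intro y _ hy
        simp [hy]
      · intro h
        exact absurd (mem_univ x) h
    rw [h3, one_mul]
    have h4 : ∀ a : t, ∑ j, |X (e (some a)) j| = ∑ j, |(a.1 j : ℝ)| := by
      intro a
      simp only [X, if_neg (hne0 a), hW]
    rw [prod_congr rfl (fun a _ => h4 a)]
    exact Finset.prod_coe_sort t (fun w : P → ℤ => ∑ j, |(w j : ℝ)|)
  rw [hprod]
  refine mul_le_mul (Real.sqrt_le_sqrt hgram) ht3
    (prod_nonneg fun w _ => sum_nonneg fun x _ => abs_nonneg _) (Real.sqrt_nonneg _)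

end Pool.Agent.Helper96.MP
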