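import Pool.Agent.Helper9.MP.Lat
import Pool.Agent.Helper55.MP.SEP

/-!
# MP_bde085_nt, block D: module SEPW (separation of Hecke and Atkin-Lehner points)
-/

set_option autoImplicit false

namespace Pool.Agent.Helper96.MP

open Complex MeasureTheory Filter Topology
open scoped MatrixGroups

theorem sepw_ne (p q r s : ℤ) {z : ℂ} (hz : z ∈ UH) (h : 0 < p * s - q * r) :
    (r : ℂ) * z + (s : ℂ) ≠ 0 := by
  intro h0
  have him : ((r : ℂ) * z + (s : ℂ)).im = 0 := by rw [h0]; simp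
  have hre : ((r : ℂ) * z + (s : ℂ)).re = 0 := by rw [h0]; simp
  have h1 : (r : ℝ) * z.im = 0 := by simpa using him
  have hr : (r : ℝ) = 0 := (mul_eq_zero.mp h1).resolve_right (ne_of_gt hz)
  have hs : (s : ℝ) = 0 := by
    have h2 : (r : ℝ) * z.re + (s : ℝ) = 0 := by simpa using hre
    rw [hr] at h2
    linarith
  have hr' : r = 0 := by exact_mod_cast hr
  have hs' : s = 0 := by exact_mod_cast hs
  rw [hr', hs'] at h
  norm_num at h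

theorem sepw_mem (p q r s : ℤ) {z : ℂ} (hz : z ∈ UH) (h : 0 < p * s - q * r) :
    mo p q r s z ∈ UH := by
  show 0 < (mo p q r s z).im
  have h1 := sepw_ne p q r s hz h
  rw [Lib.mo_im p q r s z h1]
  have h2 : (0 : ℝ) < ((p * s - q * r : ℤ) : ℝ) := by exact_mod_cast h
  have h3 : 0 < z.im := hz
  have h4 : 0 < ‖(r : ℂ) * z + (s : ℂ)‖ := norm_pos_iff.2 h1
  exact div_pos (mul_pos h2 h3) (by positivity)

theorem sepw_comp (p q r s p' q' r' s' : ℤ) (z : ℂ) (h : (r' : ℂ) * z + (s' : ℂ) ≠ 0) :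
    mo p q r s (mo p' q' r' s' z) =
      mo (p * p' + q * r') (p * q' + q * s') (r * p' + s * r') (r * q' + s * s') z := by
  unfold mo
  have e1 : (p : ℂ) * (((p' : ℂ) * z + (q' : ℂ)) / ((r' : ℂ) * z + (s' : ℂ))) + (q : ℂ) =
      ((p : ℂ) * ((p' : ℂ) * z + (q' : ℂ)) + q * ((r' : ℂ) * z + (s' : ℂ))) /
        ((r' : ℂ) * z + (s' : ℂ)) := by
    rw [eq_div_iff h, add_mul, mul_assoc, div_mul_cancel₀ _ h]
  have e2 : (r : ℂ) * (((p' : ℂ) * z + (q' : ℂ)) / ((r' : ℂ) * z + (s' : ℂ))) + (s : ℂ) =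
      ((r : ℂ) * ((p' : ℂ) * z + (q' : ℂ)) + s * ((r' : ℂ) * z + (s' : ℂ))) /
        ((r' : ℂ) * z + (s' : ℂ)) := by
    rw [eq_div_iff h, add_mul, mul_assoc, div_mul_cancel₀ _ h]
  rw [e1, e2, div_div_div_cancel_right₀ h]
  push_cast
  congr 1 <;> ring

theorem sepw_smul (k p q r s : ℤ) (z : ℂ) (hk : k ≠ 0) :
    mo (k * p) (k * q) (k * r) (k * s) z = mo p q r s z := by
  unfold mo
  have hk' : (k : ℂ) ≠ 0 := by exact_mod_cast hk
  push_cast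
  rw [show (k : ℂ) * p * z + k * q = k * (p * z + q) by ring,
    show (k : ℂ) * r * z + k * s = k * (r * z + s) by ring, mul_div_mul_left _ _ hk']

theorem sepw_inv (p q r s : ℤ) {z : ℂ} (hz : z ∈ UH) (h : 0 < p * s - q * r) :
    mo s (-q) (-r) p (mo p q r s z) = z := by
  rw [sepw_comp _ _ _ _ _ _ _ _ z (sepw_ne p q r s hz h)]
  have hk : ((p * s - q * r : ℤ) : ℂ) ≠ 0 := by exact_mod_cast h.ne'
  have e1 : s * p + -q * r = (p * s - q * r) * 1 := by ring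
  have e2 : s * q + -q * s = (p * s - q * r) * 0 := by ring
  have e3 : -r * p + p * r = (p * s - q * r) * 0 := by ring
  have e4 : -r * q + p * s = (p * s - q * r) * 1 := by ring
  rw [e1, e2, e3, e4, sepw_smul _ _ _ _ _ _ h.ne']
  unfold mo
  simp

theorem sepw_inv' (p q r s : ℤ) {z : ℂ} (hz : z ∈ UH) (h : 0 < p * s - q * r) :
    mo p q r s (mo s (-q) (-r) p z) = z := by
  have h1 : 0 < s * p - (-q) * (-r) := by
    have : s * p - (-q) * (-r) = p * s - q * r := by ring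
    rw [this]
    exact h
  have h2 := sepw_inv s (-q) (-r) p hz h1
  rw [neg_neg, neg_neg] at h2
  exact h2

theorem sepw_dist (p q r s : ℤ) {z w : ℂ} (hz : z ∈ UH) (hw : w ∈ UH) (h : 0 < p * s - q * r) :
    ‖mo p q r s z - mo p q r s w‖ ^ 2 / ((mo p q r s z).im * (mo p q r s w).im) =
      ‖z - w‖ ^ 2 / (z.im * w.im) := by
  have h1 := sepw_ne p q r s hz h
  have h2 := sepw_ne p q r s hw h
  have hD : (0 : ℝ) < ((p * s - q * r : ℤ) : ℝ) := by exact_mod_cast h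
  have e : mo p q r s z - mo p q r s w =
      ((p * s - q * r : ℤ) : ℂ) * (z - w) / (((r : ℂ) * z + s) * ((r : ℂ) * w + s)) := by
    unfold mo
    rw [div_sub_div _ _ h1 h2]
    congr 1
    push_cast
    ring
  rw [e, Lib.mo_im p q r s z h1, Lib.mo_im p q r s w h2, norm_div, norm_mul, norm_mul,
    Complex.norm_intCast, abs_of_pos hD]
  have h3 : ‖(r : ℂ) * z + (s : ℂ)‖ ≠ 0 := norm_ne_zero_iff.2 h1
  have h4 : ‖(r : ℂ) * w + (s : ℂ)‖ ≠ 0 := norm_ne_zero_iff.2 h2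
  have h5 : z.im ≠ 0 := ne_of_gt hz
  have h6 : w.im ≠ 0 := ne_of_gt hw
  have h7 := hD.ne'
  generalize ‖(r : ℂ) * z + (s : ℂ)‖ = x at h3 ⊢
  generalize ‖(r : ℂ) * w + (s : ℂ)‖ = y at h4 ⊢
  generalize ((p * s - q * r : ℤ) : ℝ) = d at h7 ⊢
  field_simp

/-- pulling back a point near the image of `z0` -/
theorem sepw_pull (A B C D : ℤ) {z0 ξ1 : ℂ} (hz0 : z0 ∈ UH) (h : 0 < A * D - B * C)
    (hb : ξ1 ∈ Metric.ball (mo A B C D z0) ((mo A B C D z0).im / 10)) :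
    ∃ ξ ∈ Metric.ball z0 (z0.im / 8), ξ ∈ UH ∧ mo A B C D ξ = ξ1 := by
  have hz1 : mo A B C D z0 ∈ UH := sepw_mem A B C D hz0 h
  have hz1' : 0 < (mo A B C D z0).im := hz1
  rw [Metric.mem_ball, dist_eq_norm] at hb
  have h1 : |ξ1.im - (mo A B C D z0).im| ≤ ‖ξ1 - mo A B C D z0‖ := by
    have := Complex.abs_im_le_norm (ξ1 - mo A B C D z0)
    rwa [Complex.sub_im] at this
  have h2 := abs_le.1 h1
  have h3 : 9 / 10 * (mo A B C D z0).im ≤ ξ1.im := by linarith [h2.1]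
  have hξ1 : ξ1 ∈ UH := by
    show 0 < ξ1.im
    linarith
  have h' : 0 < D * A - (-B) * (-C) := by
    have : D * A - (-B) * (-C) = A * D - B * C := by ring
    rw [this]
    exact h
  have hξ : mo D (-B) (-C) A ξ1 ∈ UH := sepw_mem _ _ _ _ hξ1 h'
  have hback : mo A B C D (mo D (-B) (-C) A ξ1) = ξ1 := sepw_inv' A B C D hξ1 h
  refine ⟨mo D (-B) (-C) A ξ1, ?_, hξ, hback⟩
  rw [Metric.mem_ball, dist_eq_norm]
  have hd := sepw_dist A B C D hξ hz0 h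
  rw [hback] at hd
  have hξ' : 0 < (mo D (-B) (-C) A ξ1).im := hξ
  have hz0' : 0 < z0.im := hz0
  have hξ1' : 0 < ξ1.im := hξ1
  set ξ := mo D (-B) (-C) A ξ1 with hξdef
  set z1 := mo A B C D z0 with hz1def
  have h4 : ‖ξ1 - z1‖ ^ 2 / (ξ1.im * z1.im) ≤ 1 / 90 := by
    rw [div_le_div_iff₀ (mul_pos hξ1' hz1') (by norm_num)]
    have h5 : ‖ξ1 - z1‖ ^ 2 ≤ (z1.im / 10) ^ 2 := by
      have := norm_nonneg (ξ1 - z1)
      exact pow_le_pow_left₀ this hb.le 2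
    nlinarith
  rw [hd, div_le_div_iff₀ (mul_pos hξ' hz0') (by norm_num)] at h4
  have h6 : ξ.im - z0.im ≤ ‖ξ - z0‖ := by
    have := Complex.abs_im_le_norm (ξ - z0)
    rw [Complex.sub_im] at this
    exact (le_abs_self _).trans this
  by_contra hcon
  push Not at hcon
  have h7 : 0 ≤ ‖ξ - z0‖ := norm_nonneg _
  have h8 : ‖ξ - z0‖ ^ 2 * 90 ≤ (z0.im + ‖ξ - z0‖) * z0.im := by
    have h9 : ξ.im * z0.im ≤ (z0.im + ‖ξ - z0‖) * z0.im :=
      mul_le_mul_of_nonneg_right (by linarith) hz0'.le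
    linarith
  nlinarith

/-- the matrix `adj(M') δ M` as a Moebius transformation -/
theorem sepw_X (a b d a' b' d' : ℕ) (P Q R S : ℤ) (z : ℂ) (hz : z ∈ UH) (ha : 0 < a) (hd : 0 < d)
    (hdet : P * S - Q * R = 1) :
    mo (d' : ℤ) (-(b' : ℤ)) 0 (a' : ℤ) (mo P Q R S (mo (a : ℤ) (b : ℤ) 0 (d : ℤ) z)) =
      mo ((d' : ℤ) * (P * a) - b' * (R * a)) ((d' : ℤ) * (P * b + Q * d) - b' * (R * b + S * d))
        ((a' : ℤ) * R * a) (a' * (R * b + S * d)) z := by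
  have hd0 : (0 : ℤ) < d := by exact_mod_cast hd
  have ha0 : (0 : ℤ) < a := by exact_mod_cast ha
  have h1 : ((0 : ℤ) : ℂ) * z + ((d : ℤ) : ℂ) ≠ 0 :=
    sepw_ne (a : ℤ) (b : ℤ) 0 (d : ℤ) hz (by rw [mul_zero, sub_zero]; exact mul_pos ha0 hd0)
  rw [sepw_comp P Q R S _ _ _ _ z h1]
  have h2 : 0 < (P * (a : ℤ) + Q * 0) * (R * b + S * d) - (P * b + Q * d) * (R * (a : ℤ) + S * 0) := by
    have : (P * (a : ℤ) + Q * 0) * (R * b + S * d) - (P * b + Q * d) * (R * (a : ℤ) + S * 0) =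
        (a : ℤ) * d * (P * S - Q * R) := by ring
    rw [this, hdet, mul_one]
    exact mul_pos ha0 hd0
  rw [sepw_comp _ _ _ _ _ _ _ _ z (sepw_ne _ _ _ _ hz h2)]
  have e1 : (d' : ℤ) * (P * a + Q * 0) + -(b' : ℤ) * (R * a + S * 0) =
      (d' : ℤ) * (P * a) - b' * (R * a) := by ring
  have e2 : (d' : ℤ) * (P * b + Q * d) + -(b' : ℤ) * (R * b + S * d) =
      (d' : ℤ) * (P * b + Q * d) - b' * (R * b + S * d) := by ring
  have e3 : 0 * (P * (a : ℤ) + Q * 0) + (a' : ℤ) * (R * a + S * 0) = (a' : ℤ) * R * a := by ring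
  have e4 : 0 * (P * (b : ℤ) + Q * d) + (a' : ℤ) * (R * b + S * d) = a' * (R * b + S * d) := by ring
  rw [e1, e2, e3, e4]

/-- an exact divisor prime to `p` whose square divides a power of `p` times itself -/
theorem sepw_one {N p i c : ℕ} {z : ℤ} (hN : 1 ≤ N) (hp : p.Prime) (hpN : ¬ p ∣ N) (hc : c ∈ UD N)
    (h1 : z * z = (p : ℤ) ^ i * c) (h2 : (c : ℤ) ∣ z) : c = 1 := by
  have hcN : c ∣ N := by
    unfold UD at hc
    rw [Finset.mem_filter] at hc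
    exact Nat.dvd_of_mem_divisors hc.1
  have hc0 : 0 < c := Nat.pos_of_dvd_of_pos hcN hN
  obtain ⟨k, hk⟩ := h2
  have hc0' : (c : ℤ) ≠ 0 := by exact_mod_cast hc0.ne'
  have h3 : (c : ℤ) * (k * k) = (p : ℤ) ^ i := by
    apply mul_right_cancel₀ hc0'
    rw [← h1, hk]
    ring
  have h4 : (c : ℤ) ∣ (p : ℤ) ^ i := ⟨k * k, h3.symm⟩
  have h5 : c ∣ p ^ i := by exact_mod_cast h4
  have h6 : Nat.Coprime (p ^ i) N := Nat.Coprime.pow_left i ((Nat.Prime.coprime_iff_not_dvd hp).2 hpN)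
  have h7 : Nat.Coprime c N := Nat.Coprime.coprime_dvd_left h5 h6
  exact Nat.Coprime.eq_one_of_dvd h7 hcN

/-- a conjugate of a scalar matrix is scalar -/
theorem sepw_conj (A B C D x00 x01 x10 x11 q z : ℤ) (hq : q ≠ 0) (hdet : A * D - B * C = q)
    (h00 : D * (x00 * A + x01 * C) + -B * (x10 * A + x11 * C) = q * z)
    (h01 : D * (x00 * B + x01 * D) + -B * (x10 * B + x11 * D) = q * 0)
    (h10 : -C * (x00 * A + x01 * C) + A * (x10 * A + x11 * C) = q * 0)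
    (h11 : -C * (x00 * B + x01 * D) + A * (x10 * B + x11 * D) = q * z) :
    x01 = 0 ∧ x10 = 0 ∧ x00 = x11 := by
  have hq2 : q * q ≠ 0 := mul_ne_zero hq hq
  have e01 : (q * q) * x01 = (q * q) * 0 := by
    rw [← hdet] at *
    linear_combination (-A * B) * h00 + A * A * h01 - B * B * h10 + A * B * h11
  have e10 : (q * q) * x10 = (q * q) * 0 := by
    rw [← hdet] at *
    linear_combination (C * D) * h00 - C * C * h01 + D * D * h10 - C * D * h11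
  have e00 : (q * q) * x00 = (q * q) * z := by
    rw [← hdet] at *
    linear_combination (A * D) * h00 - A * C * h01 + B * D * h10 - B * C * h11
  have e11 : (q * q) * x11 = (q * q) * z := by
    rw [← hdet] at *
    linear_combination (-B * C) * h00 + A * C * h01 - B * D * h10 + A * D * h11
  refine ⟨mul_left_cancel₀ hq2 e01, mul_left_cancel₀ hq2 e10, ?_⟩
  rw [mul_left_cancel₀ hq2 e00, mul_left_cancel₀ hq2 e11]

theorem st_SEPW (hT : ST_TQM) : ST_SEPW := by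
  intro N p J hN hp hpN A B C D hTQ z0 hz0 hbad ζ hζ
  obtain ⟨⟨hone, hcx⟩, _, hadj, hmul, _⟩ := hT N hN
  set Sx : Set (SL(2, ℤ) × (ℕ × ℕ × ℕ) × ℕ) :=
    {u | u.1 ∈ CongruenceSubgroup.Gamma0 N ∧
      (∃ j ≤ J, u.2.1 ∈ Pj p j) ∧ u.2.2 ∈ UD N ∧
      mob u.1 ζ ∈ Metric.ball (act u.2.1 (mo (A u.2.2) (B u.2.2) (C u.2.2) (D u.2.2) z0))
        ((act u.2.1 (mo (A u.2.2) (B u.2.2) (C u.2.2) (D u.2.2) z0)).im / 10)} with hSx
  have hQpos : ∀ Q ∈ UD N, 0 < Q := by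
    intro Q hQ
    unfold UD at hQ
    rw [Finset.mem_filter] at hQ
    exact Nat.pos_of_mem_divisors hQ.1
  have hdetw : ∀ Q ∈ UD N, A Q * D Q - B Q * C Q = Q := by
    intro Q hQ
    have := (hTQ Q hQ).1
    rwa [one_mul] at this
  have hdetw' : ∀ Q ∈ UD N, 0 < A Q * D Q - B Q * C Q := by
    intro Q hQ
    rw [hdetw Q hQ]
    exact_mod_cast hQpos Q hQ
  have hkey : ∀ u ∈ Sx, ∀ u' ∈ Sx, u' = u ∨ u' = (-u.1, u.2) := by
    rintro ⟨γ, t, Q⟩ ⟨hγ, ⟨j, hj, ht⟩, hQ, hb⟩ ⟨γ', t', Q'⟩ ⟨hγ', ⟨j', hj', ht'⟩, hQ', hb'⟩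
    simp only at hγ hγ' ht ht' hb hb' hQ hQ'
    obtain ⟨had, hbd, hg, ht1, ht2⟩ := sep_mem p j hp t ht
    obtain ⟨had', hbd', hg', ht1', ht2'⟩ := sep_mem p j' hp t' ht'
    obtain ⟨ξ1, hξ1, hζξ⟩ := sep_xi t ht1 ht2 _ _ hb
    obtain ⟨ξ1', hξ1', hζξ'⟩ := sep_xi t' ht1' ht2' _ _ hb'
    obtain ⟨ξ, hξ, hξU, hξe⟩ := sepw_pull _ _ _ _ hz0 (hdetw' Q hQ) hξ1
    obtain ⟨ξ', hξ', hξU', hξe'⟩ := sepw_pull _ _ _ _ hz0 (hdetw' Q' hQ') hξ1'
    set δ := γ' * γ⁻¹ with hδ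
    have hδN : (N : ℤ) ∣ δ 1 0 := by
      have h1 : δ ∈ CongruenceSubgroup.Gamma0 N :=
        (CongruenceSubgroup.Gamma0 N).mul_mem hγ' ((CongruenceSubgroup.Gamma0 N).inv_mem hγ)
      exact (Lib.g0_of_mem h1).2
    have hδdet := Lib.det1 δ
    have hζ1 : mob γ ζ ∈ UH := Lib.mob_mem γ hζ
    have hmob : mob δ (mob γ ζ) = mob γ' ζ := by
      rw [hδ, Lib.mob_mul _ _ hζ1, Lib.mob_inv_mob γ hζ]
    have hξ1U : ξ1 ∈ UH := by
      rw [← hξe]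
      exact sepw_mem _ _ _ _ hξU (hdetw' Q hQ)
    have hξ1U' : ξ1' ∈ UH := by
      rw [← hξe']
      exact sepw_mem _ _ _ _ hξU' (hdetw' Q' hQ')
    have hM : mob γ ζ = mo (t.1 : ℤ) (t.2.1 : ℤ) 0 (t.2.2 : ℤ) ξ1 := by
      rw [hζξ]
      unfold mo
      push_cast
      rw [zero_mul, zero_add]
    have hM' : mob γ' ζ = mo (t'.1 : ℤ) (t'.2.1 : ℤ) 0 (t'.2.2 : ℤ) ξ1' := by
      rw [hζξ']
      unfold mo
      push_cast
      rw [zero_mul, zero_add]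
    have ha0' : (0 : ℤ) < t'.1 := by exact_mod_cast ht1'
    have hd0' : (0 : ℤ) < t'.2.2 := by exact_mod_cast ht2'
    have hX : ξ1' = mo ((t'.2.2 : ℤ) * (δ 0 0 * t.1) - t'.2.1 * (δ 1 0 * t.1))
        ((t'.2.2 : ℤ) * (δ 0 0 * t.2.1 + δ 0 1 * t.2.2) - t'.2.1 * (δ 1 0 * t.2.1 + δ 1 1 * t.2.2))
        ((t'.1 : ℤ) * δ 1 0 * t.1) (t'.1 * (δ 1 0 * t.2.1 + δ 1 1 * t.2.2)) ξ1 := by
      rw [← sepw_X t.1 t.2.1 t.2.2 t'.1 t'.2.1 t'.2.2 (δ 0 0) (δ 0 1) (δ 1 0) (δ 1 1) ξ1 hξ1U ht1 ht2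
        hδdet, ← hM]
      change ξ1' = mo (t'.2.2 : ℤ) (-(t'.2.1 : ℤ)) 0 (t'.1 : ℤ) (mob δ (mob γ ζ))
      rw [hmob, hM']
      have h1 := sepw_inv (t'.1 : ℤ) (t'.2.1 : ℤ) 0 (t'.2.2 : ℤ) hξ1U'
        (by rw [mul_zero, sub_zero]; exact mul_pos ha0' hd0')
      rw [neg_zero] at h1
      exact h1.symm
    have hdetX : ((t'.2.2 : ℤ) * (δ 0 0 * t.1) - t'.2.1 * (δ 1 0 * t.1)) *
        (t'.1 * (δ 1 0 * t.2.1 + δ 1 1 * t.2.2)) -
        ((t'.2.2 : ℤ) * (δ 0 0 * t.2.1 + δ 0 1 * t.2.2) - t'.2.1 * (δ 1 0 * t.2.1 + δ 1 1 * t.2.2)) *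
        ((t'.1 : ℤ) * δ 1 0 * t.1) = (p : ℤ) ^ (j + j') := by
      have e1 : ((t.1 : ℤ) * t.2.2) = (p : ℤ) ^ j := by exact_mod_cast had
      have e2 : ((t'.1 : ℤ) * t'.2.2) = (p : ℤ) ^ j' := by exact_mod_cast had'
      rw [pow_add, ← e1, ← e2]
      linear_combination ((t.1 : ℤ) * t.2.2 * (t'.1 * t'.2.2)) * hδdet
    have hNX : (N : ℤ) ∣ (t'.1 : ℤ) * δ 1 0 * t.1 := Dvd.dvd.mul_right (Dvd.dvd.mul_left hδN _) _
    obtain ⟨x00, hx00⟩ : ∃ x, x = (t'.2.2 : ℤ) * (δ 0 0 * t.1) - t'.2.1 * (δ 1 0 * t.1) := ⟨_, rfl⟩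
    obtain ⟨x01, hx01⟩ : ∃ x, x = (t'.2.2 : ℤ) * (δ 0 0 * t.2.1 + δ 0 1 * t.2.2) -
      t'.2.1 * (δ 1 0 * t.2.1 + δ 1 1 * t.2.2) := ⟨_, rfl⟩
    obtain ⟨x10, hx10⟩ : ∃ x, x = (t'.1 : ℤ) * δ 1 0 * t.1 := ⟨_, rfl⟩
    obtain ⟨x11, hx11⟩ : ∃ x, x = (t'.1 : ℤ) * (δ 1 0 * t.2.1 + δ 1 1 * t.2.2) := ⟨_, rfl⟩
    rw [← hx00, ← hx01, ← hx10, ← hx11] at hX hdetX
    rw [← hx10] at hNX
    have hppos : (0 : ℤ) < (p : ℤ) ^ (j + j') := by
      have : (0 : ℤ) < p := by exact_mod_cast hp.pos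
      positivity
    have hTX : TQ N 1 ((p : ℤ) ^ (j + j')) x00 x01 x10 x11 := by
      refine ⟨by rw [hdetX]; push_cast; ring, by simp, by simp, hNX⟩
    have hcx1 : ∀ Q ∈ UD N, cx 1 Q = Q := by
      intro Q hQ
      rw [(hcx 1 hone Q hQ).2.2.2.1, (hcx Q hQ Q hQ).2.2.2.2]
    obtain ⟨y00, y01, y10, y11, hTY, hy00, hy01, hy10, hy11⟩ :=
      hmul 1 hone Q hQ _ _ _ _ _ _ _ _ _ _ hTX (hTQ Q hQ)
    rw [hcx1 Q hQ] at hTY
    rw [Nat.gcd_one_left, Nat.cast_one, one_mul] at hy00 hy01 hy10 hy11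
    obtain ⟨w00, w01, w10, w11, hTW, hw00, hw01, hw10, hw11⟩ :=
      hmul Q' hQ' Q hQ _ _ _ _ _ _ _ _ _ _ (hadj Q' _ _ _ _ _ (hTQ Q' hQ')) hTY
    have hgpos : 0 < Nat.gcd Q' Q := Nat.gcd_pos_of_pos_left _ (hQpos Q' hQ')
    have hg0 : ((Nat.gcd Q' Q : ℕ) : ℤ) ≠ 0 := by exact_mod_cast hgpos.ne'
    have hξξ' : mo w00 w01 w10 w11 ξ = ξ' := by
      rw [← sepw_smul _ w00 w01 w10 w11 ξ hg0, ← hw00, ← hw01, ← hw10, ← hw11]
      have hY : 0 < y00 * y11 - y01 * y10 := by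
        rw [hTY.1]
        have : (0 : ℤ) < Q := by exact_mod_cast hQpos Q hQ
        rw [mul_one]
        exact mul_pos hppos this
      rw [← sepw_comp _ _ _ _ _ _ _ _ ξ (sepw_ne _ _ _ _ hξU hY), ← hy00, ← hy01, ← hy10, ← hy11,
        ← sepw_comp _ _ _ _ _ _ _ _ ξ (sepw_ne _ _ _ _ hξU (hdetw' Q hQ)), hξe, ← hX, ← hξe',
        sepw_inv _ _ _ _ hξU' (hdetw' Q' hQ')]
    have hsc : w01 = 0 ∧ w10 = 0 ∧ w00 = w11 := by
      by_contra hcon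
      apply hbad
      refine ⟨j + j', by omega, cx Q' Q, (hcx Q' hQ' Q hQ).1, w00, w01, w10, w11, ?_, hcon, ξ, hξ, ξ',
        hξ', hξξ'⟩
      rw [one_mul, mul_one] at hTW
      exact hTW
    obtain ⟨hs01, hs10, hs00⟩ := hsc
    have hcx0 : cx Q' Q = 1 := by
      obtain ⟨hT1, hT2, _, _⟩ := hTW
      refine sepw_one hN hp hpN (hcx Q' hQ' Q hQ).1 (z := w00) (i := j + j') ?_ hT2
      rw [hs01, ← hs00] at hT1
      linear_combination hT1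
    have hQQ : Q = Q' := by
      have h1 := (hcx Q' hQ' Q hQ).2.1
      rw [hcx0, hcx1 Q hQ] at h1
      exact h1
    subst hQQ
    have hq0 : (Q : ℤ) ≠ 0 := by exact_mod_cast (hQpos Q hQ).ne'
    rw [Nat.gcd_self] at hw00 hw01 hw10 hw11
    rw [hs01] at hw01
    rw [hs10] at hw10
    rw [← hs00] at hw11
    rw [← hy00, ← hy10] at hw00 hw10
    rw [← hy01, ← hy11] at hw01 hw11
    obtain ⟨hX01, hX10, hX00⟩ := sepw_conj (A Q) (B Q) (C Q) (D Q) x00 x01 x10 x11 Q w00 hq0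
      (hdetw Q hQ) hw00 hw01 hw10 hw11
    rw [hx01] at hX01
    rw [hx10] at hX10
    rw [hx00, hx11] at hX00
    obtain ⟨htt, hR, hQ0, hPS⟩ := sep_int (δ 0 0) (δ 0 1) (δ 1 0) (δ 1 1) t t' hδdet hg hg' ht1 ht2
      hbd ht1' ht2' hbd' hX10 hX01 hX00
    have hγδ : γ' = δ * γ := by rw [hδ, inv_mul_cancel_right]
    rcases hPS with ⟨hP, hS⟩ | ⟨hP, hS⟩
    · left
      have h1 : δ = 1 := by
        ext i j
        fin_cases i <;> fin_cases j <;> simp [hP, hS, hR, hQ0]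
      rw [hγδ, h1, one_mul, htt]
    · right
      have h1 : δ = -1 := by
        ext i j
        fin_cases i <;> fin_cases j <;> simp [hP, hS, hR, hQ0]
      rw [hγδ, h1, htt, neg_one_mul]
  rcases Sx.eq_empty_or_nonempty with he | ⟨u, hu⟩
  · rw [he]
    exact ⟨Set.finite_empty, by simp⟩
  · have hsub : Sx ⊆ {u, (-u.1, u.2)} := by
      intro u' hu'
      rcases hkey u hu u' hu' with h | h
      · exact Or.inl h
      · exact Or.inr h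
    have hfin : ({u, (-u.1, u.2)} : Set (SL(2, ℤ) × (ℕ × ℕ × ℕ) × ℕ)).Finite := by
      exact (Set.finite_singleton _).insert _
    refine ⟨hfin.subset hsub, (Set.ncard_le_ncard hsub hfin).trans ?_⟩
    refine (Set.ncard_insert_le _ _).trans ?_
    rw [Set.ncard_singleton]

end Pool.Agent.Helper96.MP
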